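import Pool.Agent.Q125.Pod.Main

set_option autoImplicit false

namespace Pool.Agent.Results.MP_b90bcc_co.Classification

open Q125.Pod

/-- The answer to Q1 is negative, and the pairs `(k, s)` are classified: if some tournament on at
most `k` vertices has `pod` at least `s`, then the number `N(k, s)` exists if and only if `s ≤ 3`.
For every `s` (in particular for every `s ≥ 4`) there are such `k`. -/
theorem result :
    (¬ ∀ k s : ℕ, 1 ≤ k → 1 ≤ s → Admissible k s → Unavoidable k s) ∧
    (∀ k s : ℕ, 1 ≤ k → 1 ≤ s → Admissible k s → (Unavoidable k s ↔ s ≤ 3)) ∧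
    (∀ s : ℕ, ∃ k : ℕ, 1 ≤ k ∧ Admissible k s) :=
  main

end Pool.Agent.Results.MP_b90bcc_co.Classification
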